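import Pool.Agent.Helper84.OV.Zero

/-!
# Project OV (MP_57df85_nt), packet OV-INT (helper90): one variable interpolation
-/

set_option autoImplicit false

open Finset

namespace Pool.Agent.Helper90.OV.INT

open Pool.Agent.Helper84.OV

open scoped Polynomial

/-- sum of the absolute values of the coefficients over the rationals -/
noncomputable def nq (F : ℚ[X]) : ℚ := ∑ i ∈ F.support, |F.coeff i|

theorem nq_eq (F : ℚ[X]) (s : Finset ℕ) (h : F.support ⊆ s) : nq F = ∑ i ∈ s, |F.coeff i| := by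
  unfold nq
  refine sum_subset h fun i _ hi => ?_
  rw [Polynomial.notMem_support_iff] at hi
  rw [hi, abs_zero]

theorem nq_nonneg (F : ℚ[X]) : 0 ≤ nq F := sum_nonneg fun _ _ => abs_nonneg _

theorem nq_zero : nq 0 = 0 := by simp [nq]

theorem nq_add (F G : ℚ[X]) : nq (F + G) ≤ nq F + nq G := by
  rw [nq_eq F (F.support ∪ G.support) subset_union_left,
    nq_eq G (F.support ∪ G.support) subset_union_right,
    nq_eq (F + G) (F.support ∪ G.support) (Polynomial.support_add), ← sum_add_distrib]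
  refine sum_le_sum fun i _ => ?_
  rw [Polynomial.coeff_add]
  exact abs_add_le _ _

theorem nq_monomial (i : ℕ) (a : ℚ) : nq (Polynomial.monomial i a) = |a| := by
  rw [nq_eq _ {i} (Polynomial.support_monomial' _ _)]
  simp

theorem nq_sum {ι : Type} (s : Finset ι) (f : ι → ℚ[X]) : nq (∑ i ∈ s, f i) ≤ ∑ i ∈ s, nq (f i) := by
  classical
  induction s using Finset.induction_on with
  | empty => simp [nq_zero]
  | insert a s ha ih =>
    rw [sum_insert ha, sum_insert ha]
    exact (nq_add _ _).trans (by linarith)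

theorem nq_mul (F G : ℚ[X]) : nq (F * G) ≤ nq F * nq G := by
  have h1 : F * G = ∑ i ∈ F.support, ∑ j ∈ G.support,
      Polynomial.monomial (i + j) (F.coeff i * G.coeff j) := by
    conv_lhs => rw [Polynomial.as_sum_support F, Polynomial.as_sum_support G, sum_mul_sum]
    refine sum_congr rfl fun i _ => sum_congr rfl fun j _ => ?_
    rw [Polynomial.monomial_mul_monomial]
  rw [h1]
  refine (nq_sum _ _).trans ?_
  unfold nq
  rw [sum_mul_sum]
  refine sum_le_sum fun i _ => ?_
  refine (nq_sum _ _).trans (sum_le_sum fun j _ => ?_)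
  rw [nq_monomial, abs_mul]

theorem nq_C (a : ℚ) : nq (Polynomial.C a) = |a| := nq_monomial 0 a

theorem nq_prod {ι : Type} (s : Finset ι) (f : ι → ℚ[X]) (B : ℚ) (hB : 0 ≤ B)
    (h : ∀ i ∈ s, nq (f i) ≤ B) : nq (∏ i ∈ s, f i) ≤ B ^ s.card := by
  classical
  induction s using Finset.induction_on with
  | empty =>
    rw [prod_empty, card_empty, pow_zero, ← Polynomial.C_1, nq_C, abs_one]
  | insert a s ha ih =>
    rw [prod_insert ha, card_insert_of_notMem ha, pow_succ, mul_comm (B ^ s.card)]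
    refine (nq_mul _ _).trans (mul_le_mul (h a (mem_insert_self _ _))
      (ih fun i hi => h i (mem_insert_of_mem hi)) (nq_nonneg _) hB)

theorem nq_map (F : ℤ[X]) : nq (F.map (Int.castRingHom ℚ)) = (n1 F : ℚ) := by
  have h : (F.map (Int.castRingHom ℚ)).support ⊆ F.support := Polynomial.support_map_subset _ _
  rw [nq_eq _ _ h]
  unfold n1
  push_cast
  refine sum_congr rfl fun i _ => ?_
  rw [Polynomial.coeff_map, eq_intCast, Nat.cast_natAbs, Int.cast_abs]

theorem nq_basisDivisor (n x y : ℕ) (hxy : x ≠ y) (hy : y ≤ 2 * n) :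
    nq (Lagrange.basisDivisor (x : ℚ) (y : ℚ)) ≤ 2 * n + 1 := by
  unfold Lagrange.basisDivisor
  refine (nq_mul _ _).trans ?_
  have h1 : nq (Polynomial.X - Polynomial.C (y : ℚ)) ≤ 1 + y := by
    have h2 : (Polynomial.X - Polynomial.C (y : ℚ) : ℚ[X]) =
        Polynomial.monomial 1 1 + Polynomial.C (-(y : ℚ)) := by
      rw [Polynomial.C_neg, sub_eq_add_neg]
      rfl
    rw [h2]
    refine (nq_add _ _).trans ?_
    rw [nq_monomial, nq_C, abs_neg, abs_one, abs_of_nonneg (Nat.cast_nonneg y)]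
  have h3 : nq (Polynomial.C ((x : ℚ) - (y : ℚ))⁻¹) ≤ 1 := by
    rw [nq_C, abs_inv]
    refine inv_le_one_of_one_le₀ ?_
    have h4 : ((x : ℤ) - (y : ℤ)) ≠ 0 := by
      intro h
      apply hxy
      exact_mod_cast sub_eq_zero.1 h
    have h5 := Int.one_le_abs h4
    have h6 : ((1 : ℤ) : ℚ) ≤ ((|(x : ℤ) - (y : ℤ)| : ℤ) : ℚ) := Int.cast_le.2 h5
    push_cast at h6
    exact h6
  have h7 : (y : ℚ) ≤ 2 * n := by exact_mod_cast hy
  calc nq (Polynomial.C ((x : ℚ) - (y : ℚ))⁻¹) * nq (Polynomial.X - Polynomial.C (y : ℚ))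
      ≤ 1 * (1 + y) := mul_le_mul h3 h1 (nq_nonneg _) zero_le_one
    _ ≤ 2 * n + 1 := by linarith

theorem t : S_INT := by
  intro F n M Z hF hZ hx
  obtain ⟨s, hs, hcard⟩ := exists_subset_card_eq hZ
  have hinj : Set.InjOn (fun i : ℕ => (i : ℚ)) s := fun a _ b _ h => Nat.cast_injective h
  have hdeg : (F.map (Int.castRingHom ℚ)).degree < (s.card : ℕ) := by
    rw [hcard]
    refine lt_of_le_of_lt (Polynomial.degree_le_natDegree) ?_
    have h1 : (F.map (Int.castRingHom ℚ)).natDegree ≤ n :=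
      (Polynomial.natDegree_map_le).trans hF
    exact_mod_cast Nat.lt_succ_of_le h1
  have hI := Lagrange.eq_interpolate hinj hdeg
  rw [Lagrange.interpolate_apply] at hI
  have hB : ∀ i ∈ s, nq (Lagrange.basis s (fun i : ℕ => (i : ℚ)) i) ≤ (2 * n + 1) ^ n := by
    intro i hi
    unfold Lagrange.basis
    have h2 := nq_prod (s.erase i) (fun j => Lagrange.basisDivisor ((fun i : ℕ => (i : ℚ)) i)
      ((fun i : ℕ => (i : ℚ)) j)) (2 * n + 1) (by positivity) fun j hj =>
        nq_basisDivisor n i j (fun h => (mem_erase.1 hj).1 h.symm) (hx j (hs (mem_erase.1 hj).2)).1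
    rw [card_erase_of_mem hi, hcard, Nat.add_sub_cancel] at h2
    exact h2
  have h3 : nq (F.map (Int.castRingHom ℚ)) ≤ ∑ i ∈ s, (M : ℚ) * (2 * n + 1) ^ n := by
    rw [hI]
    refine (nq_sum _ _).trans (sum_le_sum fun i hi => (nq_mul _ _).trans ?_)
    refine mul_le_mul ?_ (hB i hi) (nq_nonneg _) (Nat.cast_nonneg _)
    rw [nq_C]
    have h4 : Polynomial.eval (i : ℚ) (F.map (Int.castRingHom ℚ)) = ((F.eval (i : ℤ) : ℤ) : ℚ) := by
      have := Polynomial.eval_map_apply (Int.castRingHom ℚ) (p := F) (i : ℤ)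
      simpa using this
    rw [h4]
    have h5 := (hx i (hs hi)).2
    have h6 : ((|F.eval (i : ℤ)| : ℤ) : ℚ) ≤ ((M : ℤ) : ℚ) := by
      refine Int.cast_le.2 ?_
      rw [Int.abs_eq_natAbs]
      exact_mod_cast h5
    push_cast at h6
    exact h6
  rw [nq_map, sum_const, hcard, nsmul_eq_mul] at h3
  have h7 : (n1 F : ℚ) ≤ (((n + 1) * (2 * n + 1) ^ n * M : ℕ) : ℚ) := by
    push_cast
    push_cast at h3
    calc (n1 F : ℚ) ≤ ((n : ℚ) + 1) * (M * (2 * n + 1) ^ n) := h3
      _ = (n + 1) * (2 * n + 1) ^ n * M := by ring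
  exact_mod_cast h7

end Pool.Agent.Helper90.OV.INT
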